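import Pool.Agent.Helper54.CG.Goals

/-! The step of the G4 tower (packet CG-STEP): assembly and index types. -/

set_option autoImplicit false

namespace Pool.Agent.Helper20.CG.STEP

open MvPolynomial Pool.Agent.Helper16.Cusp Pool.Agent.Helper54.CG

theorem pM_homog : IsWeightedHomogeneous wt pM 6 := by
  have h0 : IsWeightedHomogeneous wt (X 0 : R) 1 := isWeightedHomogeneous_X ℂ wt 0
  have h1 : IsWeightedHomogeneous wt (X 1 : R) 2 := isWeightedHomogeneous_X ℂ wt 1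
  have h2 : IsWeightedHomogeneous wt (X 2 : R) 1 := isWeightedHomogeneous_X ℂ wt 2
  have hC : ∀ c : ℂ, IsWeightedHomogeneous wt (C c : R) 0 := fun c =>
    isWeightedHomogeneous_C wt c
  have e : pM = X 0 ^ 2 * X 1 ^ 2 + C (-4) * X 1 ^ 3 + C (-4) * X 0 ^ 3 * X 2 ^ 3 +
      C 18 * X 0 * X 1 * X 2 ^ 3 + C (-27) * X 2 ^ 6 := by
    have c4 : (C (-4) : R) = -4 := by rw [map_neg]; rfl
    have c27 : (C (-27) : R) = -27 := by rw [map_neg]; rfl
    have c18 : (C 18 : R) = 18 := rfl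
    rw [c4, c27, c18]
    unfold pM
    ring
  rw [e]
  have t1 : IsWeightedHomogeneous wt (X 0 ^ 2 * X 1 ^ 2 : R) 6 := by
    simpa using (h0.pow 2).mul (h1.pow 2)
  have t2 : IsWeightedHomogeneous wt (C (-4) * X 1 ^ 3 : R) 6 := by
    simpa using (hC (-4)).mul (h1.pow 3)
  have t3 : IsWeightedHomogeneous wt (C (-4) * X 0 ^ 3 * X 2 ^ 3 : R) 6 := by
    simpa using ((hC (-4)).mul (h0.pow 3)).mul (h2.pow 3)
  have t4 : IsWeightedHomogeneous wt (C 18 * X 0 * X 1 * X 2 ^ 3 : R) 6 := by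
    simpa using (((hC 18).mul h0).mul h1).mul (h2.pow 3)
  have t5 : IsWeightedHomogeneous wt (C (-27) * X 2 ^ 6 : R) 6 := by
    simpa using (hC (-27)).mul (h2.pow 6)
  exact (((t1.add t2).add t3).add t4).add t5

theorem wsm_inj {t t' : ℂ} (ht : t ≠ 0) {α β α' β' : ℂ}
    (h : wsm t ![α, β, 1] = wsm t' ![α', β', 1]) : α = α' ∧ β = β' := by
  have h2 : t = t' := by
    have := congrFun h 2
    simpa [wsm] using this
  have h0 : t * α = t' * α' := by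
    have := congrFun h 0
    simpa [wsm] using this
  have h1 : t ^ 2 * β = t' ^ 2 * β' := by
    have := congrFun h 1
    simpa [wsm] using this
  rw [← h2] at h0 h1
  exact ⟨mul_left_cancel₀ ht h0, mul_left_cancel₀ (pow_ne_zero 2 ht) h1⟩

theorem pt_inj {s s' : ℂ} (h0 : s ≠ 0) (h0' : s' ≠ 0) (h1 : s ^ 3 ≠ 1)
    (hα : 2 * s + 1 / s ^ 2 = 2 * s' + 1 / s' ^ 2) (hβ : s ^ 2 + 2 / s = s' ^ 2 + 2 / s') :
    s = s' := by
  by_contra hne
  have hd : s - s' ≠ 0 := sub_ne_zero.2 hne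
  have e1 : (s - s') ^ 2 * (s - 1 / s' ^ 2) = 0 := by
    have a : s ^ 3 - (2 * s + 1 / s ^ 2) * s ^ 2 + (s ^ 2 + 2 / s) * s - 1 = 0 := by
      field_simp
      ring
    rw [hα, hβ] at a
    rw [← a]
    field_simp
    ring
  have e2 : (s' - s) ^ 2 * (s' - 1 / s ^ 2) = 0 := by
    have a : s' ^ 3 - (2 * s' + 1 / s' ^ 2) * s' ^ 2 + (s' ^ 2 + 2 / s') * s' - 1 = 0 := by
      field_simp
      ring
    rw [← hα, ← hβ] at a
    rw [← a]
    field_simp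
    ring
  have hd' : s' - s ≠ 0 := sub_ne_zero.2 (Ne.symm hne)
  have e3 : s = 1 / s' ^ 2 := sub_eq_zero.1 ((mul_eq_zero.1 e1).resolve_left (pow_ne_zero 2 hd))
  have e4 : s' = 1 / s ^ 2 := sub_eq_zero.1 ((mul_eq_zero.1 e2).resolve_left (pow_ne_zero 2 hd'))
  have e5 : s * s' ^ 2 = 1 := by
    rw [e3]
    field_simp
  have e6 : s' * s ^ 2 = 1 := by
    rw [e4]
    field_simp
  have e7 : s * s' * (s' - s) = 0 := by
    have : s * s' * (s' - s) = s * s' ^ 2 - s' * s ^ 2 := by ring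
    rw [this, e5, e6, sub_self]
  rcases mul_eq_zero.1 e7 with h | h
  · rcases mul_eq_zero.1 h with h | h
    · exact h0 h
    · exact h0' h
  · exact hd' h

theorem wsm_pt_inj {t t' s s' : ℂ} (ht : t ≠ 0) (h0 : s ≠ 0) (h0' : s' ≠ 0) (h1 : s ^ 3 ≠ 1)
    (h : wsm t (pt s) = wsm t' (pt s')) : s = s' := by
  unfold pt at h
  obtain ⟨a, b⟩ := wsm_inj ht h
  exact pt_inj h0 h0' h1 a b

theorem t (hCC : G_CC) (hTC : G_TC) (hTT : G_TT) (hSC : G_SC) (hF9 : G_F9) (hFM3 : G_FM3)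
    (hFM2 : G_FM2) (hMS : G_MS) (hHOM : G_HOM) (hN : G_N) : G_STEP := by
  intro F n κ τ hL
  obtain ⟨c, hci, hc⟩ := hL.cusp
  obtain ⟨s, hsi, hs⟩ := hL.tan
  obtain ⟨n1, n2, n3, n4⟩ := hN F n κ τ hL
  have h9 : ∀ i : Fin κ, ∃ d : Fin 9 → ℂ × ℂ, Function.Injective d ∧ ∀ a, (d a).1 ^ 3 ≠ 27 ∧
      eval ![(d a).1, (d a).2, 1] pM ≠ 0 ∧ eval ![(d a).1, (d a).2, 1] pR ≠ 0 ∧
      ∃ t : ℂ, t ≠ 0 ∧ phi ![(d a).1, (d a).2, 1] = wsm t ![(c i).1, (c i).2, 1] :=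
    fun i => hF9 _ _ (hc i).2.1 (hc i).2.2
  choose d hdi hd using h9
  have h2 : ∀ j : Fin τ, ∃ e : Fin 2 → ℂ × ℂ, Function.Injective e ∧ ∀ a, (e a).1 ^ 3 ≠ 27 ∧
      eval ![(e a).1, (e a).2, 1] pM ≠ 0 ∧ eval ![(e a).1, (e a).2, 1] pR = 0 ∧
      ∃ t : ℂ, t ≠ 0 ∧ phi ![(e a).1, (e a).2, 1] = wsm t (pt (s j)) :=
    fun j => hFM2 _ (hs j).2.1 (hs j).2.2.1 (hs j).2.2.2
  choose e hei he using h2
  have h3 : ∀ j : Fin τ, ∃ r : Fin 3 → ℂ, Function.Injective r ∧ ∀ a, r a ≠ 0 ∧ r a ^ 3 ≠ 1 ∧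
      8 * r a ^ 3 ≠ -1 ∧ eval (pt (r a)) pR ≠ 0 ∧
      ∃ t : ℂ, t ≠ 0 ∧ phi (pt (r a)) = wsm t (pt (s j)) :=
    fun j => hFM3 _ (hs j).2.1 (hs j).2.2.1 (hs j).2.2.2
  choose r hri hr using h3
  refine ⟨hHOM F n hL.homog, n1, n2, n3, n4, ?_, ?_⟩
  · -- cusps
    let E : Fin (9 * κ + 2 * τ) ≃ (Fin κ × Fin 9) ⊕ (Fin τ × Fin 2) :=
      Fintype.equivOfCardEq (by simp [mul_comm])
    let g : (Fin κ × Fin 9) ⊕ (Fin τ × Fin 2) → ℂ × ℂ :=
      Sum.elim (fun x => d x.1 x.2) (fun x => e x.1 x.2)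
    have hg : Function.Injective g := by
      rintro (⟨i, a⟩ | ⟨j, a⟩) (⟨i', a'⟩ | ⟨j', a'⟩) h
      · have h' : d i a = d i' a' := h
        obtain ⟨t1, ht1, hp1⟩ := (hd i a).2.2.2
        obtain ⟨t2, ht2, hp2⟩ := (hd i' a').2.2.2
        rw [h', hp2] at hp1
        obtain ⟨ha, hb⟩ := wsm_inj ht2 hp1
        have hii : c i' = c i := Prod.ext ha hb
        have hii2 := hci hii
        subst hii2
        have := hdi _ h'
        subst this
        rfl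
      · have h' : d i a = e j' a' := h
        have h1 := (hd i a).2.2.1
        rw [h'] at h1
        exact absurd (he j' a').2.2.1 h1
      · have h' : e j a = d i' a' := h
        have h1 := (hd i' a').2.2.1
        rw [← h'] at h1
        exact absurd (he j a).2.2.1 h1
      · have h' : e j a = e j' a' := h
        obtain ⟨t1, ht1, hp1⟩ := (he j a).2.2.2
        obtain ⟨t2, ht2, hp2⟩ := (he j' a').2.2.2
        rw [h', hp2] at hp1
        have hjj := wsm_pt_inj ht2 (hs j').2.1 (hs j).2.1 (hs j').2.2.1 hp1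
        have hjj2 := hsi hjj
        subst hjj2
        have := hei _ h'
        subst this
        rfl
    have hall : ∀ x, CuspE (pull F) ![(g x).1, (g x).2, 1] ∧ (g x).1 ^ 3 ≠ 27 ∧
        eval ![(g x).1, (g x).2, 1] pM ≠ 0 := by
      rintro (⟨i, a⟩ | ⟨j, a⟩)
      · obtain ⟨p1, p2, p3, t1, ht1, hp⟩ := hd i a
        refine ⟨?_, p1, p2⟩
        refine hCC F ![(d i a).1, (d i a).2, 1] ?_ p3
        rw [hp]
        exact (hSC F n t1 _ hL.homog ht1).1 (hc i).1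
      · obtain ⟨p1, p2, p3, t1, ht1, hp⟩ := he j a
        refine ⟨?_, p1, p2⟩
        refine hTC F ![(e j a).1, (e j a).2, 1] ?_ p3 p2 ?_
        · rw [hp]
          exact (hSC F n t1 _ hL.homog ht1).2.1 (hs j).1
        · rw [hp]
          exact (hSC pM 6 t1 _ pM_homog ht1).2.2.2
            ⟨1, (hMS (s j) (hs j).2.1).2.2 (hs j).2.2.1⟩
    exact ⟨g ∘ E, hg.comp E.injective, fun i => hall (E i)⟩
  · -- tangencies
    let E : Fin (3 * τ) ≃ Fin τ × Fin 3 := Fintype.equivOfCardEq (by simp [mul_comm])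
    let g : Fin τ × Fin 3 → ℂ := fun x => r x.1 x.2
    have hg : Function.Injective g := by
      rintro ⟨j, a⟩ ⟨j', a'⟩ h
      have h' : r j a = r j' a' := h
      obtain ⟨t1, ht1, hp1⟩ := (hr j a).2.2.2.2
      obtain ⟨t2, ht2, hp2⟩ := (hr j' a').2.2.2.2
      rw [h', hp2] at hp1
      have hjj := wsm_pt_inj ht2 (hs j').2.1 (hs j).2.1 (hs j').2.2.1 hp1
      have hjj2 := hsi hjj
      subst hjj2
      have := hri _ h'
      subst this
      rfl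
    have hall : ∀ x, TanE (pull F) (pt (g x)) ∧ g x ≠ 0 ∧ g x ^ 3 ≠ 1 ∧ 8 * g x ^ 3 ≠ -1 := by
      rintro ⟨j, a⟩
      obtain ⟨p1, p2, p3, p4, t1, ht1, hp⟩ := hr j a
      refine ⟨?_, p1, p2, p3⟩
      refine hTT F (pt (r j a)) ?_ (hMS _ p1).1 p4
      rw [hp]
      exact (hSC F n t1 _ hL.homog ht1).2.1 (hs j).1
    exact ⟨g ∘ E, hg.comp E.injective, fun i => hall (E i)⟩

end Pool.Agent.Helper20.CG.STEP
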